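import Pool.Agent.H72.CLU.Count

/-!
# Power saving for tuples of short intervals, one height (MP_3cf473_nt)
-/

set_option autoImplicit false

open Finset

namespace Pool.Agent.H72.CLU

open Pool.Agent.H72.PSV.Rel (Exceptional bad_of_exc ncard_eq)

theorem BadC.mono_s {r k n : ℕ} {ξ : Fin r → ℂ} {d : ℕ} {s t A C H : ℝ} {M : Fin k → ℕ}
    (h : BadC n ξ d s A C H M) (hst : s ≤ t) (hM : ∀ j, 1 ≤ M j) : BadC n ξ d t A C H M := by
  obtain ⟨p, hp, a, ha, hcl, hexc⟩ := h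
  refine ⟨p, hp, a, ha, fun i => ?_, hexc⟩
  obtain ⟨j, hj⟩ := hcl i
  exact ⟨j, hj.mono hst (hM j)⟩

theorem clu (r n d : ℕ) : ∀ k : ℕ, ∃ s C0 : ℝ, 0 < s ∧ s ≤ 1 ∧ 0 < C0 ∧ ∀ A : ℝ, ∃ C : ℝ,
    0 < C ∧ ∀ x : ℕ, 1 ≤ x → ∀ H : ℝ, 2 ≤ H → (x : ℝ) ≤ H → ∀ ξ : Fin r → ℂ,
    (∀ i, ‖ξ i‖ ≤ H) →
    (Set.ncard {M : Fin k → ℕ | (∀ j, 1 ≤ M j ∧ M j ≤ x) ∧ BadC n ξ d s A C H M} : ℝ) ≤
      C0 * (x : ℝ) ^ ((k : ℝ) - s) := by
  classical
  intro k
  induction k with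
  | zero =>
    refine ⟨1, 1, one_pos, le_rfl, one_pos, fun A => ⟨max A 1, by positivity, ?_⟩⟩
    intro x hx H hH hxH ξ hξ
    have h1 : {M : Fin 0 → ℕ | (∀ j, 1 ≤ M j ∧ M j ≤ x) ∧ BadC n ξ d 1 A (max A 1) H M} = ∅ := by
      ext M
      simp only [Set.mem_ofPred_eq, Set.mem_empty_iff_false, iff_false, not_and]
      rintro - ⟨p, hp, a, ha, hcl, hexc⟩
      rcases Nat.eq_zero_or_pos p with h0 | h0
      · subst h0
        exact Pool.Agent.H72.BF.not_badRN_zero ξ d A _ H (le_max_left _ _) hH _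
          (bad_of_exc ξ d H A _ hH _ hexc)
      · obtain ⟨j, -⟩ := hcl ⟨0, h0⟩
        exact j.elim0
    rw [h1]
    have h2 : (0 : ℝ) ≤ (x : ℝ) ^ (((0 : ℕ) : ℝ) - 1) := by positivity
    simp only [Set.ncard_empty, Nat.cast_zero, one_mul] at h2 ⊢
    exact h2
  | succ k ih =>
    obtain ⟨s1, C01, hs1, hs11, hC01, h1⟩ := ih
    obtain ⟨dl, N1, hdl, hdl1, hN1, h2⟩ := lcnU r n d
    have htd : Filter.Tendsto (fun N : ℕ => (N : ℝ) ^ (dl / 2)) Filter.atTop Filter.atTop :=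
      (tendsto_rpow_atTop (by positivity)).comp tendsto_natCast_atTop_atTop
    obtain ⟨N3, hN3⟩ := Filter.eventually_atTop.1 (htd.eventually_ge_atTop 3)
    set N2 : ℕ := max N1 N3 with hN2
    have hN2p : ∀ N : ℕ, N2 ≤ N → 3 * (N : ℝ) ^ (dl / 2) ≤ (N : ℝ) ^ dl := by
      intro N hN
      have h3 := hN3 N ((le_max_right _ _).trans hN)
      have h4 : 1 ≤ N := (hN1.trans (le_max_left _ _)).trans hN
      have h5 : (0 : ℝ) < N := by exact_mod_cast h4
      have h6 : (N : ℝ) ^ dl = (N : ℝ) ^ (dl / 2) * (N : ℝ) ^ (dl / 2) := by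
        rw [← Real.rpow_add h5]
        congr 1
        ring
      rw [h6]
      exact mul_le_mul_of_nonneg_right h3 (by positivity)
    have hn1 : (0 : ℝ) < n + 1 := by positivity
    set s2 : ℝ := dl / 8 / (n + 1) with hs2
    have hs2p : 0 < s2 := by positivity
    have hs2e : s2 * (n + 1) = dl / 8 := by
      rw [hs2]
      field_simp
    have hs2d : s2 ≤ dl / 8 := by
      have : (0 : ℝ) ≤ s2 * n := by positivity
      linarith
    set s : ℝ := min s1 s2 with hs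
    have hsp : 0 < s := lt_min hs1 hs2p
    have hss1 : s ≤ s1 := min_le_left _ _
    have hss2 : s ≤ s2 := min_le_right _ _
    set Kc : ℝ := (n + 1) * ((n + 1) * ((2 * k + 1) ^ n * (r + n + 1))) * 2 with hKc
    have hKc0 : 0 < Kc := by positivity
    set C02 : ℝ := (N2 : ℝ) ^ 2 + (3 * Kc + 4) with hC02
    have hC02p : 0 < C02 := by positivity
    refine ⟨s, C01 + C02, hsp, hss1.trans hs11, by positivity, fun A => ?_⟩
    obtain ⟨C1, hC1, hG1⟩ := h1 A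
    obtain ⟨C2, hC2, hG2⟩ := h2 C1
    refine ⟨C2, hC2, ?_⟩
    intro x hx H hH hxH ξ hξ
    have hxR : (1 : ℝ) ≤ x := by exact_mod_cast hx
    have hx0 : (0 : ℝ) < x := by linarith
    have hG1 := hG1 x hx H hH hxH ξ hξ
    rw [ncard_eq x] at hG1 ⊢
    set T : ℝ := C02 * (x : ℝ) ^ (1 - dl / 8) with hT
    have hT0 : 0 ≤ T := by positivity
    have hfib : ∀ M' ∈ Fintype.piFinset (fun _ : Fin k => Finset.Icc 1 x),
        ¬ BadC n ξ d s A C1 H M' →
        (((Finset.Icc 1 x).filter (fun m => BadC n ξ d s A C2 H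
          (Fin.snoc (α := fun _ : Fin (k + 1) => ℕ) M' m))).card : ℝ) ≤ T := by
      intro M' hM' hgood
      rw [Fintype.mem_piFinset] at hM'
      have hM1 : ∀ j, 1 ≤ M' j ∧ M' j ≤ x := fun j => Finset.mem_Icc.1 (hM' j)
      have hz1 : (1 : ℝ) ≤ (x : ℝ) ^ (1 - dl / 8) := Real.one_le_rpow hxR (by linarith)
      rcases le_or_gt (N2 ^ 2) x with hN | hN
      · have h3 := fibre_bound r n d k dl N1 N2 hdl hdl1 (le_max_left _ _) hN2p s hsp
          (by linarith) A C1 C2 hG2 x hx hN H hH hxH ξ hξ M' hM1 hgood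
        refine h3.trans ?_
        set X : ℝ := (x : ℝ) ^ s with hX
        have hX1 : 1 ≤ X := Real.one_le_rpow hxR hsp.le
        have hL : ((⌊X⌋₊ : ℕ) : ℝ) ≤ X := Nat.floor_le (by linarith)
        have hL0 : (0 : ℝ) ≤ ((⌊X⌋₊ : ℕ) : ℝ) := Nat.cast_nonneg _
        have hKX : ((((n + 1) * ((n + 1) * ((k * (⌊X⌋₊ + 1) + 1) ^ n * (r + n + 1))) *
            (⌊X⌋₊ + 1) : ℕ) : ℝ)) ≤ Kc * X ^ (n + 1) := by
          push_cast
          have hk0 : (0 : ℝ) ≤ k := Nat.cast_nonneg _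
          have h4 : (k : ℝ) * (((⌊X⌋₊ : ℕ) : ℝ) + 1) + 1 ≤ (2 * k + 1) * X := by
            nlinarith [mul_le_mul_of_nonneg_left (by linarith : ((⌊X⌋₊ : ℕ) : ℝ) + 1 ≤ 2 * X) hk0]
          have h5 : ((k : ℝ) * (((⌊X⌋₊ : ℕ) : ℝ) + 1) + 1) ^ n ≤ (2 * k + 1) ^ n * X ^ n := by
            rw [← mul_pow]
            exact pow_le_pow_left₀ (by positivity) h4 n
          have h6 : ((⌊X⌋₊ : ℕ) : ℝ) + 1 ≤ 2 * X := by linarith
          calc ((n : ℝ) + 1) * ((n + 1) * ((k * (((⌊X⌋₊ : ℕ) : ℝ) + 1) + 1) ^ n *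
                (r + n + 1))) * (((⌊X⌋₊ : ℕ) : ℝ) + 1)
              ≤ ((n : ℝ) + 1) * ((n + 1) * (((2 * k + 1) ^ n * X ^ n) *
                (r + n + 1))) * (2 * X) := by gcongr
            _ = Kc * X ^ (n + 1) := by rw [hKc]; ring
        have hXp : X ^ (n + 1) ≤ (x : ℝ) ^ (dl / 8) := by
          rw [hX, ← Real.rpow_natCast, ← Real.rpow_mul hx0.le]
          refine Real.rpow_le_rpow_of_exponent_le hxR ?_
          push_cast
          calc s * ((n : ℝ) + 1) ≤ s2 * (n + 1) := mul_le_mul_of_nonneg_right hss2 hn1.le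
            _ = dl / 8 := hs2e
        have hX8 : (1 : ℝ) ≤ (x : ℝ) ^ (dl / 8) := Real.one_le_rpow hxR (by positivity)
        have h7 : 3 * ((((n + 1) * ((n + 1) * ((k * (⌊X⌋₊ + 1) + 1) ^ n * (r + n + 1))) *
            (⌊X⌋₊ + 1) : ℕ) : ℝ)) + 4 ≤ (3 * Kc + 4) * (x : ℝ) ^ (dl / 8) := by
          have h8 : Kc * X ^ (n + 1) ≤ Kc * (x : ℝ) ^ (dl / 8) :=
            mul_le_mul_of_nonneg_left hXp hKc0.le
          nlinarith
        calc _ ≤ ((3 * Kc + 4) * (x : ℝ) ^ (dl / 8)) * (x : ℝ) ^ (1 - dl / 2 / 2) :=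
              mul_le_mul_of_nonneg_right h7 (by positivity)
          _ = (3 * Kc + 4) * (x : ℝ) ^ (1 - dl / 8) := by
              rw [mul_assoc, ← Real.rpow_add hx0]
              congr 2
              ring
          _ ≤ T := by
              rw [hT, hC02]
              refine mul_le_mul_of_nonneg_right ?_ (by positivity)
              have : (0 : ℝ) ≤ (N2 : ℝ) ^ 2 := by positivity
              linarith
      · have h3 : ((Finset.Icc 1 x).filter (fun m => BadC n ξ d s A C2 H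
            (Fin.snoc (α := fun _ : Fin (k + 1) => ℕ) M' m))).card ≤ x := by
          calc _ ≤ (Finset.Icc 1 x).card := Finset.card_filter_le _ _
            _ = x := by simp
        have h4 : (((Finset.Icc 1 x).filter (fun m => BadC n ξ d s A C2 H
            (Fin.snoc (α := fun _ : Fin (k + 1) => ℕ) M' m))).card : ℝ) ≤ (N2 : ℝ) ^ 2 := by
          exact_mod_cast h3.trans hN.le
        refine h4.trans ?_
        have h5 : (N2 : ℝ) ^ 2 ≤ C02 := by
          rw [hC02]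
          linarith
        calc (N2 : ℝ) ^ 2 ≤ C02 * 1 := by linarith
          _ ≤ C02 * (x : ℝ) ^ (1 - dl / 8) := mul_le_mul_of_nonneg_left hz1 hC02p.le
    have hfin := fiber k x (fun M => BadC n ξ d s A C2 H M) (fun M' => BadC n ξ d s A C1 H M')
      T hT0 hfib
    have hsub : (((Fintype.piFinset (fun _ : Fin k => Finset.Icc 1 x)).filter
        (fun M' => BadC n ξ d s A C1 H M')).card : ℝ) ≤ C01 * (x : ℝ) ^ ((k : ℝ) - s1) := by
      refine le_trans ?_ hG1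
      refine Nat.cast_le.2 (Finset.card_le_card ?_)
      intro M' hM'
      rw [Finset.mem_filter] at hM' ⊢
      refine ⟨hM'.1, hM'.2.mono_s hss1 fun j => ?_⟩
      exact (Finset.mem_Icc.1 ((Fintype.mem_piFinset.1 hM'.1) j)).1
    refine hfin.trans ?_
    have h6 := mul_le_mul_of_nonneg_right hsub hx0.le
    have h8 : (x : ℝ) ^ ((k : ℝ) - s1) * x ≤ (x : ℝ) ^ ((k : ℝ) + 1 - s) := by
      calc (x : ℝ) ^ ((k : ℝ) - s1) * x = (x : ℝ) ^ ((k : ℝ) - s1) * (x : ℝ) ^ (1 : ℝ) := by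
            rw [Real.rpow_one]
        _ = (x : ℝ) ^ ((k : ℝ) + 1 - s1) := by
            rw [← Real.rpow_add hx0]
            congr 1
            ring
        _ ≤ (x : ℝ) ^ ((k : ℝ) + 1 - s) :=
            Real.rpow_le_rpow_of_exponent_le hxR (by linarith)
    have h9 : (x : ℝ) ^ k * (x : ℝ) ^ (1 - dl / 8) ≤ (x : ℝ) ^ ((k : ℝ) + 1 - s) := by
      rw [← Real.rpow_natCast, ← Real.rpow_add hx0]
      exact Real.rpow_le_rpow_of_exponent_le hxR (by linarith)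
    have h10 := mul_le_mul_of_nonneg_left h8 hC01.le
    have h11 := mul_le_mul_of_nonneg_left h9 hC02p.le
    push_cast
    calc _ ≤ C01 * ((x : ℝ) ^ ((k : ℝ) - s1) * x) + C02 * ((x : ℝ) ^ k * (x : ℝ) ^ (1 - dl / 8)) := by
          rw [hT]
          linarith
      _ ≤ C01 * (x : ℝ) ^ ((k : ℝ) + 1 - s) + C02 * (x : ℝ) ^ ((k : ℝ) + 1 - s) :=
          add_le_add h10 h11
      _ = (C01 + C02) * (x : ℝ) ^ ((k : ℝ) + 1 - s) := (add_mul _ _ _).symm

end Pool.Agent.H72.CLU
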