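import Pool.Agent.H72.CLU.Fiber
import Pool.Agent.H81.PSV.CN1

/-!
# Counting at one height: tuples of distinct integers in the union of short intervals
(MP_3cf473_nt)
-/

set_option autoImplicit false

open Finset

namespace Pool.Agent.H72.CLU

open Pool.Agent.H72.PSV.Rel (Exceptional bad_of_exc)

/-- `z` is in the short interval which begins at `m` -/
def inCl (s : ℝ) (m z : ℕ) : Prop := m ≤ z ∧ (z : ℝ) ≤ m + (m : ℝ) ^ s

theorem inCl.mono {s t : ℝ} {m z : ℕ} (h : inCl s m z) (hst : s ≤ t) (hm : 1 ≤ m) :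
    inCl t m z := by
  refine ⟨h.1, h.2.trans ?_⟩
  have := Real.rpow_le_rpow_of_exponent_le (by exact_mod_cast hm : (1 : ℝ) ≤ m) hst
  linarith

/-- some tuple of at most `n` distinct integers of the short intervals is exceptional -/
def BadC {r k : ℕ} (n : ℕ) (ξ : Fin r → ℂ) (d : ℕ) (s A C H : ℝ) (M : Fin k → ℕ) : Prop :=
  ∃ p : ℕ, p ≤ n ∧ ∃ a : Fin p → ℕ, Function.Injective a ∧ (∀ i, ∃ j, inCl s (M j) (a i)) ∧
    Exceptional ξ d H A C (fun i => ((Real.log (a i) : ℝ) : ℂ))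

theorem step_logic {r k : ℕ} (n d : ℕ) (ξ : Fin r → ℂ) (s A C1 C2 H : ℝ) (M' : Fin k → ℕ) (m : ℕ)
    (hbad : BadC n ξ d s A C2 H (Fin.snoc (α := fun _ : Fin (k + 1) => ℕ) M' m))
    (hgood : ¬ BadC n ξ d s A C1 H M') :
    ∃ p q : ℕ, p ≤ n ∧ q ≤ n ∧ ∃ a' : Fin p → ℕ, (∀ i, ∃ j, inCl s (M' j) (a' i)) ∧
      ∃ a'' : Fin q → ℕ, Function.Injective a'' ∧ (∀ i, inCl s m (a'' i)) ∧
      Exceptional ((Sum.elim ξ (fun i => ((Real.log (a' i) : ℝ) : ℂ))) ∘ finSumFinEquiv.symm :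
        Fin (r + p) → ℂ) d H C1 C2 (fun i => ((Real.log (a'' i) : ℝ) : ℂ)) := by
  classical
  obtain ⟨p₀, hp₀, a, ha, hcl, hexc⟩ := hbad
  set pr : Fin p₀ → Prop := fun i => ∃ j, inCl s (M' j) (a i) with hpr
  set p : ℕ := Fintype.card {i // pr i} with hp
  set q : ℕ := Fintype.card {i // ¬ pr i} with hq
  have hpp : p ≤ p₀ := by
    have := Fintype.card_subtype_le pr
    simpa [hp] using this
  have hqp : q ≤ p₀ := by
    have := Fintype.card_subtype_le (fun i => ¬ pr i)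
    simpa [hq] using this
  let f : Fin p ⊕ Fin q ≃ Fin p₀ :=
    (Equiv.sumCongr (Fintype.equivFin {i // pr i}).symm (Fintype.equivFin {i // ¬ pr i}).symm).trans
      (Equiv.sumCompl pr)
  set a' : Fin p → ℕ := fun i => a (f (Sum.inl i)) with ha'
  set a'' : Fin q → ℕ := fun i => a (f (Sum.inr i)) with ha''
  have h1 : ∀ i, pr (f (Sum.inl i)) := by
    intro i
    simp only [f, Equiv.trans_apply, Equiv.sumCongr_apply, Sum.map_inl, Equiv.sumCompl_apply_inl]
    exact ((Fintype.equivFin {i // pr i}).symm i).2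
  have h2 : ∀ i, ¬ pr (f (Sum.inr i)) := by
    intro i
    simp only [f, Equiv.trans_apply, Equiv.sumCongr_apply, Sum.map_inr, Equiv.sumCompl_apply_inr]
    exact ((Fintype.equivFin {i // ¬ pr i}).symm i).2
  refine ⟨p, q, hpp.trans hp₀, hqp.trans hp₀, a', h1, a'', ?_, ?_, ?_⟩
  · intro i j hij
    have := f.injective (ha hij)
    exact Sum.inr_injective this
  · intro i
    obtain ⟨j, hj⟩ := hcl (f (Sum.inr i))
    refine Fin.lastCases (motive := fun j => inCl s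
      (Fin.snoc (α := fun _ : Fin (k + 1) => ℕ) M' m j) (a (f (Sum.inr i))) →
        inCl s m (a (f (Sum.inr i)))) ?_ ?_ j hj
    · intro h
      rwa [Fin.snoc_last] at h
    · intro j h
      rw [Fin.snoc_castSucc] at h
      exact absurd ⟨j, h⟩ (h2 i)
  · have h3 : Exc ξ d H A C2 (fun i => ((Real.log (a i) : ℝ) : ℂ)) := hexc
    have h4 := Exc.reindex (Equiv.refl (Fin r)) f h3
    have h5 : (fun i => ((Real.log (a i) : ℝ) : ℂ)) ∘ f =
        Sum.elim (fun i => ((Real.log (a' i) : ℝ) : ℂ)) (fun i => ((Real.log (a'' i) : ℝ) : ℂ)) := by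
      funext i
      cases i <;> rfl
    rw [h5] at h4
    have h6 : ¬ Exc ξ d H A C1 (fun i => ((Real.log (a' i) : ℝ) : ℂ)) := by
      intro h7
      refine hgood ⟨p, hpp.trans hp₀, a', ?_, h1, h7⟩
      intro i j hij
      have := f.injective (ha hij)
      exact Sum.inl_injective this
    have h8 := Exc.split h4 h6
    have h9 : Exc ((Sum.elim ξ (fun i => ((Real.log (a' i) : ℝ) : ℂ))) ∘ finSumFinEquiv.symm :
        Fin (r + p) → ℂ) d H C1 C2
        ((fun i => ((Real.log (a'' i) : ℝ) : ℂ)) ∘ (Equiv.refl (Fin q))) :=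
      Exc.reindex (σ := Fin (r + p)) (σ' := Fin r ⊕ Fin p) (τ := Fin q) (τ' := Fin q)
        finSumFinEquiv.symm (Equiv.refl (Fin q)) h8
    exact h9

theorem floor_of_inCl {s : ℝ} {m z x : ℕ} (hs : 0 ≤ s) (h : inCl s m z) (hmx : m ≤ x) :
    z ≤ m + ⌊(x : ℝ) ^ s⌋₊ := by
  have h1 : ((z - m : ℕ) : ℝ) ≤ (x : ℝ) ^ s := by
    rw [Nat.cast_sub h.1]
    have h2 : (m : ℝ) ^ s ≤ (x : ℝ) ^ s :=
      Real.rpow_le_rpow (Nat.cast_nonneg _) (by exact_mod_cast hmx) hs
    linarith [h.2]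
  have h3 := Nat.le_floor h1
  have := h.1
  omega

open Classical in
/-- the fibre over a good tuple of short intervals -/
theorem fibre_bound (r n d k : ℕ) (dl : ℝ) (N1 N2 : ℕ) (hdl : 0 < dl) (hdl1 : dl ≤ 1)
    (hN12 : N1 ≤ N2) (hN2 : ∀ N : ℕ, N2 ≤ N → 3 * (N : ℝ) ^ (dl / 2) ≤ (N : ℝ) ^ dl)
    (s : ℝ) (hs : 0 < s) (hse : s ≤ dl / 2) (A C1 C2 : ℝ)
    (hB : ∀ p q : ℕ, ∀ H : ℝ, ∀ ξ : Fin (r + p) → ℂ, ∀ N : ℕ,
      ∃ B : Finset ℕ, B.card ≤ r + n + 1 ∧ (p ≤ n → q ≤ n → 2 ≤ H → (∀ i, ‖ξ i‖ ≤ H) → N1 ≤ N →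
      (N : ℝ) ≤ H → ∀ a : Fin q → ℕ, Function.Injective a → (∀ i, a i ∉ B) →
      (∀ i, N ≤ a i ∧ (a i : ℝ) ≤ N + (N : ℝ) ^ dl) →
      ¬ Exceptional ξ d H C1 C2 (fun i => ((Real.log (a i) : ℝ) : ℂ))))
    (x : ℕ) (hx1 : 1 ≤ x) (hx : N2 ^ 2 ≤ x) (H : ℝ) (hH : 2 ≤ H) (hxH : (x : ℝ) ≤ H)
    (ξ : Fin r → ℂ) (hξ : ∀ i, ‖ξ i‖ ≤ H) (M' : Fin k → ℕ) (hM' : ∀ j, 1 ≤ M' j ∧ M' j ≤ x)
    (hgood : ¬ BadC n ξ d s A C1 H M') :
    (((Finset.Icc 1 x).filter (fun m => BadC n ξ d s A C2 H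
      (Fin.snoc (α := fun _ : Fin (k + 1) => ℕ) M' m))).card : ℝ) ≤
      (3 * (((n + 1) * ((n + 1) * ((k * (⌊(x : ℝ) ^ s⌋₊ + 1) + 1) ^ n * (r + n + 1))) *
        (⌊(x : ℝ) ^ s⌋₊ + 1) : ℕ) : ℝ) + 4) * (x : ℝ) ^ (1 - dl / 2 / 2) := by
  have hxR : (1 : ℝ) ≤ x := by exact_mod_cast hx1
  set L : ℕ := ⌊(x : ℝ) ^ s⌋₊ with hL
  choose Bs hBs1 hBs2 using hB
  set S' : Finset ℕ := Finset.univ.biUnion (fun j : Fin k => Finset.Icc (M' j) (M' j + L))
    with hS'
  have hS'c : S'.card ≤ k * (L + 1) := by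
    have h1 := Finset.card_biUnion_le_card_mul (Finset.univ : Finset (Fin k))
      (fun j : Fin k => Finset.Icc (M' j) (M' j + L)) (L + 1) (fun j _ => by simp; omega)
    simpa using h1
  let lg : ∀ p : ℕ, (Fin p → ℕ) → Fin (r + p) → ℂ := fun p a' =>
    (Sum.elim ξ (fun i => ((Real.log (a' i) : ℝ) : ℂ))) ∘ finSumFinEquiv.symm
  set BB : ℕ → Finset ℕ := fun N => (Finset.range (n + 1)).biUnion fun p =>
    (Finset.range (n + 1)).biUnion fun q =>
      (Fintype.piFinset (fun _ : Fin p => S')).biUnion fun a' => Bs p q H (lg p a') N with hBB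
  have hBBc : ∀ N, (BB N).card ≤
      (n + 1) * ((n + 1) * ((k * (L + 1) + 1) ^ n * (r + n + 1))) := by
    intro N
    have h1 := Finset.card_biUnion_le_card_mul (Finset.range (n + 1))
      (fun p => (Finset.range (n + 1)).biUnion fun q =>
        (Fintype.piFinset (fun _ : Fin p => S')).biUnion fun a' => Bs p q H (lg p a') N)
      ((n + 1) * ((k * (L + 1) + 1) ^ n * (r + n + 1))) ?_
    · rwa [Finset.card_range] at h1
    intro p hp
    have h2 := Finset.card_biUnion_le_card_mul (Finset.range (n + 1))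
      (fun q => (Fintype.piFinset (fun _ : Fin p => S')).biUnion fun a' => Bs p q H (lg p a') N)
      ((k * (L + 1) + 1) ^ n * (r + n + 1)) ?_
    · rwa [Finset.card_range] at h2
    intro q _
    refine (Finset.card_biUnion_le_card_mul _ _ (r + n + 1)
      (fun a' _ => hBs1 p q H (lg p a') N)).trans ?_
    refine Nat.mul_le_mul_right _ ?_
    rw [Fintype.card_piFinset_const]
    have hp' : p ≤ n := by
      have := Finset.mem_range.1 hp
      omega
    calc S'.card ^ p ≤ (k * (L + 1) + 1) ^ p := Nat.pow_le_pow_left (by omega) p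
      _ ≤ (k * (L + 1) + 1) ^ n := Nat.pow_le_pow_right (by omega) hp'
  set K : ℕ := (n + 1) * ((n + 1) * ((k * (L + 1) + 1) ^ n * (r + n + 1))) * (L + 1) with hK
  obtain ⟨Pr, hPr⟩ : ∃ Pr : ℕ → Prop, ∀ m, Pr m ↔ (m ≤ x ∧ BadC n ξ d s A C2 H
      (Fin.snoc (α := fun _ : Fin (k + 1) => ℕ) M' m)) := ⟨_, fun _ => Iff.rfl⟩
  have hfil : (Finset.Icc 1 x).filter (fun m => BadC n ξ d s A C2 H
      (Fin.snoc (α := fun _ : Fin (k + 1) => ℕ) M' m)) = (Finset.Icc 1 x).filter Pr := by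
    refine Finset.filter_congr fun m hm => ?_
    have := (Finset.mem_Icc.1 hm).2
    rw [hPr]
    tauto
  rw [hfil]
  refine Pool.Agent.H81.PSV.count_blocks Pr K N2 x (dl / 2) (by linarith) (by linarith) hx1 hx ?_
  intro N hN1 hN2' hNx a hmono ha0 haN
  by_contra hcon
  push Not at hcon
  have hNR : (1 : ℝ) ≤ N := by exact_mod_cast hN2'
  have hNp : (1 : ℝ) ≤ (N : ℝ) ^ (dl / 2) := Real.one_le_rpow hNR (by linarith)
  -- each `a i` is near an element of `BB N`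
  have hnear : ∀ i, ∃ z ∈ BB N, a i ∈ Finset.Icc (z - L) z := by
    intro i
    obtain ⟨hix, hbad⟩ := (hPr _).1 (hcon i)
    obtain ⟨p, q, hp, hq, a', ha', a'', ha'', hcl, hexc⟩ :=
      step_logic n d ξ s A C1 C2 H M' (a i) hbad hgood
    have hmi : N ≤ a i := ha0.trans (hmono.monotone (Fin.zero_le _))
    have ha'S : ∀ t, a' t ∈ S' := by
      intro t
      obtain ⟨j, hj⟩ := ha' t
      rw [hS', Finset.mem_biUnion]
      exact ⟨j, Finset.mem_univ _, Finset.mem_Icc.2 ⟨hj.1, floor_of_inCl hs.le hj (hM' j).2⟩⟩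
    have hlgH : ∀ t, ‖lg p a' t‖ ≤ H := by
      intro t
      simp only [lg, Function.comp_apply]
      rcases finSumFinEquiv.symm t with t | t
      · exact hξ t
      · rw [Sum.elim_inr, Complex.norm_real, Real.norm_eq_abs]
        obtain ⟨j, hj⟩ := ha' t
        have h1 : (1 : ℝ) ≤ M' j := by exact_mod_cast (hM' j).1
        have h2 : (M' j : ℝ) ≤ x := by exact_mod_cast (hM' j).2
        have h3 : (M' j : ℝ) ≤ a' t := by exact_mod_cast hj.1
        have h4 : (M' j : ℝ) ^ s ≤ (M' j : ℝ) ^ (1 : ℝ) :=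
          Real.rpow_le_rpow_of_exponent_le h1 (by linarith)
        rw [Real.rpow_one] at h4
        have h5 : (a' t : ℝ) ≤ 2 * x := by linarith [hj.2]
        rw [abs_of_nonneg (Real.log_nonneg (by linarith))]
        have h6 : Real.log (a' t) ≤ Real.log (2 * x) := Real.log_le_log (by linarith) h5
        rw [Real.log_mul (by norm_num) (by linarith)] at h6
        have h7 := Real.log_le_sub_one_of_pos (by linarith : (0 : ℝ) < x)
        have h8 := Real.log_le_sub_one_of_pos (by norm_num : (0 : ℝ) < 2)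
        linarith
    have hlocal : ∀ t, N ≤ a'' t ∧ (a'' t : ℝ) ≤ N + (N : ℝ) ^ dl := by
      intro t
      refine ⟨hmi.trans (hcl t).1, ?_⟩
      have h1 : (a i : ℝ) ≤ N + (N : ℝ) ^ (dl / 2) := haN i
      have h2 : (N : ℝ) ^ (dl / 2) ≤ (N : ℝ) ^ (1 : ℝ) :=
        Real.rpow_le_rpow_of_exponent_le hNR (by linarith)
      rw [Real.rpow_one] at h2
      have h3 : (a i : ℝ) ≤ 2 * N := by linarith
      have h4 : (a i : ℝ) ^ s ≤ 2 * (N : ℝ) ^ (dl / 2) := by
        calc (a i : ℝ) ^ s ≤ (2 * (N : ℝ)) ^ s :=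
              Real.rpow_le_rpow (Nat.cast_nonneg _) h3 hs.le
          _ = 2 ^ s * (N : ℝ) ^ s := Real.mul_rpow (by norm_num) (by linarith)
          _ ≤ 2 ^ (1 : ℝ) * (N : ℝ) ^ (dl / 2) := by
              refine mul_le_mul ?_ ?_ (by positivity) (by positivity)
              · exact Real.rpow_le_rpow_of_exponent_le (by norm_num) (by linarith)
              · exact Real.rpow_le_rpow_of_exponent_le hNR hse
          _ = 2 * (N : ℝ) ^ (dl / 2) := by rw [Real.rpow_one]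
      have h5 := hN2 N hN1
      linarith [(hcl t).2]
    have hhit : ∃ t, a'' t ∈ Bs p q H (lg p a') N := by
      by_contra hno
      push Not at hno
      exact hBs2 p q H (lg p a') N hp hq hH hlgH (hN12.trans hN1)
        ((by exact_mod_cast hNx : (N : ℝ) ≤ x).trans hxH) a'' ha'' hno hlocal hexc
    obtain ⟨t, ht⟩ := hhit
    refine ⟨a'' t, ?_, ?_⟩
    · rw [hBB]
      simp only [Finset.mem_biUnion, Finset.mem_range, Fintype.mem_piFinset]
      exact ⟨p, by omega, q, by omega, a', ha'S, ht⟩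
    · have h1 := floor_of_inCl hs.le (hcl t) hix
      have h2 := (hcl t).1
      rw [← hL] at h1
      rw [Finset.mem_Icc]
      omega
  have himg : (Finset.univ.image a) ⊆ (BB N).biUnion (fun z => Finset.Icc (z - L) z) := by
    intro y hy
    rw [Finset.mem_image] at hy
    obtain ⟨i, -, rfl⟩ := hy
    rw [Finset.mem_biUnion]
    exact hnear i
  have h1 := Finset.card_le_card himg
  rw [Finset.card_image_of_injective _ hmono.injective, Finset.card_univ, Fintype.card_fin] at h1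
  have h2 := Finset.card_biUnion_le_card_mul (BB N) (fun z => Finset.Icc (z - L) z) (L + 1)
    (fun z _ => by rw [Nat.card_Icc]; omega)
  have h3 : (BB N).card * (L + 1) ≤ K := Nat.mul_le_mul_right _ (hBBc N)
  omega

end Pool.Agent.H72.CLU
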