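import Pool.Agent.H72.CLU.Split
import Pool.Agent.H72.PSV.All2

/-!
# Fibres and the uniform local statement (MP_3cf473_nt)
-/

set_option autoImplicit false

open Finset

namespace Pool.Agent.H72.CLU

open Pool.Agent.H72.PSV.Rel (Exceptional bad_of_exc)

open Classical in
theorem fiber (k x : ℕ) (p : (Fin (k + 1) → ℕ) → Prop) (g : (Fin k → ℕ) → Prop) (T : ℝ)
    (hT : 0 ≤ T)
    (h : ∀ M' ∈ Fintype.piFinset (fun _ : Fin k => Finset.Icc 1 x), ¬ g M' →
      (((Finset.Icc 1 x).filter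
        (fun z => p (Fin.snoc (α := fun _ : Fin (k + 1) => ℕ) M' z))).card : ℝ) ≤ T) :
    (((Fintype.piFinset (fun _ : Fin (k + 1) => Finset.Icc 1 x)).filter p).card : ℝ) ≤
      ((Fintype.piFinset (fun _ : Fin k => Finset.Icc 1 x)).filter g).card * x +
        (x : ℝ) ^ k * T := by
  set XX : Finset (Fin k → ℕ) := Fintype.piFinset (fun _ => Finset.Icc 1 x) with hXX
  set Bf : Finset (Fin (k + 1) → ℕ) :=
    (Fintype.piFinset (fun _ => Finset.Icc 1 x)).filter p with hBf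
  set Gf : Finset (Fin k → ℕ) := XX.filter g with hGf
  have hmem : ∀ a ∈ Bf, (∀ i, a i ∈ Finset.Icc 1 x) ∧ p a := by
    intro a ha
    rw [hBf, Finset.mem_filter, Fintype.mem_piFinset] at ha
    exact ha
  have hmaps : ∀ a ∈ Bf, Fin.init a ∈ XX := by
    intro a haB
    rw [hXX, Fintype.mem_piFinset]
    intro i
    exact (hmem a haB).1 _
  have hcard : Bf.card = ∑ a' ∈ XX, (Bf.filter (fun a => Fin.init a = a')).card :=
    Finset.card_eq_sum_card_fiberwise (f := fun a : Fin (k + 1) → ℕ => (Fin.init a : Fin k → ℕ))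
      (s := Bf) (t := XX) hmaps
  have hfib0 : ∀ a' : Fin k → ℕ, (Bf.filter (fun a => Fin.init a = a')).card ≤ x := by
    intro a'
    have h3 : (Bf.filter (fun a => Fin.init a = a')).card ≤ (Finset.Icc 1 x).card := by
      refine Finset.card_le_card_of_injOn (fun a => a (Fin.last k)) ?_ ?_
      · intro a haf
        rw [Finset.mem_coe, Finset.mem_filter] at haf
        exact (hmem a haf.1).1 _
      · intro a haf b hbf hab
        rw [Finset.mem_coe, Finset.mem_filter] at haf hbf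
        rw [← Fin.snoc_init_self a, ← Fin.snoc_init_self b, haf.2, hbf.2]
        simp only at hab
        rw [hab]
    simpa using h3
  have hfib : ∀ a' : Fin k → ℕ, (Bf.filter (fun a => Fin.init a = a')).card ≤
      ((Finset.Icc 1 x).filter
        (fun z => p (Fin.snoc (α := fun _ : Fin (k + 1) => ℕ) a' z))).card := by
    intro a'
    refine Finset.card_le_card_of_injOn (fun a => a (Fin.last k)) ?_ ?_
    · intro a haf
      rw [Finset.mem_coe, Finset.mem_filter] at haf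
      rw [Finset.mem_coe, Finset.mem_filter]
      obtain ⟨haB, hin⟩ := haf
      refine ⟨(hmem a haB).1 _, ?_⟩
      rw [← hin, Fin.snoc_init_self]
      exact (hmem a haB).2
    · intro a haf b hbf hab
      rw [Finset.mem_coe, Finset.mem_filter] at haf hbf
      rw [← Fin.snoc_init_self a, ← Fin.snoc_init_self b, haf.2, hbf.2]
      simp only at hab
      rw [hab]
  have hbound : ∀ a' ∈ XX, ((Bf.filter (fun a => Fin.init a = a')).card : ℝ) ≤
      (if a' ∈ Gf then (x : ℝ) else 0) + T := by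
    intro a' haX
    by_cases hg : a' ∈ Gf
    · rw [if_pos hg]
      have : ((Bf.filter (fun a => Fin.init a = a')).card : ℝ) ≤ x := by
        exact_mod_cast hfib0 a'
      linarith
    · rw [if_neg hg, zero_add]
      have hnb : ¬ g a' := by
        intro hb
        exact hg (Finset.mem_filter.2 ⟨haX, hb⟩)
      refine le_trans ?_ (h a' haX hnb)
      exact_mod_cast hfib a'
  have hXn : (XX.card : ℝ) = (x : ℝ) ^ k := by
    rw [hXX, Fintype.card_piFinset_const]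
    simp
  rw [hcard]
  push_cast
  refine (Finset.sum_le_sum hbound).trans ?_
  rw [Finset.sum_add_distrib, Finset.sum_const, nsmul_eq_mul, hXn, ← Finset.sum_filter]
  have h5 : ∑ _a ∈ XX.filter (fun a' => a' ∈ Gf), (x : ℝ) ≤ Gf.card * x := by
    rw [Finset.sum_const, nsmul_eq_mul]
    refine mul_le_mul_of_nonneg_right ?_ (Nat.cast_nonneg _)
    exact_mod_cast Finset.card_le_card (fun a haf => (Finset.mem_filter.1 haf).2)
  linarith

/-- the local statement, uniform in the lengths -/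
theorem lcnU (r n d : ℕ) : ∃ (dl : ℝ) (N1 : ℕ), 0 < dl ∧ dl ≤ 1 ∧ 1 ≤ N1 ∧ ∀ A : ℝ,
    ∃ C : ℝ, 0 < C ∧ ∀ p q : ℕ, ∀ H : ℝ, ∀ ξ : Fin (r + p) → ℂ, ∀ N : ℕ,
    ∃ B : Finset ℕ, B.card ≤ r + n + 1 ∧ (p ≤ n → q ≤ n → 2 ≤ H → (∀ i, ‖ξ i‖ ≤ H) → N1 ≤ N →
      (N : ℝ) ≤ H → ∀ a : Fin q → ℕ, Function.Injective a → (∀ i, a i ∉ B) →
      (∀ i, N ≤ a i ∧ (a i : ℝ) ≤ N + (N : ℝ) ^ dl) →
      ¬ Exceptional ξ d H A C (fun i => ((Real.log (a i) : ℝ) : ℂ))) := by
  choose dl N1 hdl hC using (fun p q : ℕ => Pool.Agent.H72.PSV.lcnAll (r + p) q d)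
  set S : Finset (ℕ × ℕ) := Finset.range (n + 1) ×ˢ Finset.range (n + 1) with hS
  have hne : S.Nonempty := ⟨(0, 0), by simp [hS]⟩
  have hmS : ∀ p q : ℕ, p ≤ n → q ≤ n → (p, q) ∈ S := by
    intro p q hp hq
    rw [hS, Finset.mem_product, Finset.mem_range, Finset.mem_range]
    exact ⟨by omega, by omega⟩
  refine ⟨min 1 (S.inf' hne (fun t => dl t.1 t.2)), max 1 (S.sup (fun t => N1 t.1 t.2)),
    lt_min one_pos ((Finset.lt_inf'_iff _).2 fun t _ => hdl _ _), min_le_left _ _,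
    le_max_left _ _, fun A => ?_⟩
  choose C hC0 hC1 using (fun p q : ℕ => hC p q A)
  refine ⟨1 + ∑ t ∈ S, C t.1 t.2, ?_, ?_⟩
  · have : 0 ≤ ∑ t ∈ S, C t.1 t.2 := Finset.sum_nonneg fun t _ => (hC0 _ _).le
    linarith
  intro p q H ξ N
  by_cases hcond : p ≤ n ∧ q ≤ n ∧ 2 ≤ H ∧ (∀ i, ‖ξ i‖ ≤ H) ∧
      max 1 (S.sup (fun t => N1 t.1 t.2)) ≤ N ∧ (N : ℝ) ≤ H
  · obtain ⟨hp, hq, hH, hξ, hN, hNH⟩ := hcond
    have hN1 : N1 p q ≤ N :=
      (Finset.le_sup (f := fun t : ℕ × ℕ => N1 t.1 t.2) (hmS p q hp hq)).trans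
        ((le_max_right _ _).trans hN)
    have hN2 : 1 ≤ N := (le_max_left _ _).trans hN
    obtain ⟨B, hB, hB1⟩ := hC1 p q H hH ξ hξ N hN1 hN2 hNH
    refine ⟨B, by omega, fun _ _ _ _ _ _ a ha haB haN hexc => ?_⟩
    refine hB1 a ha haB (fun i => ⟨(haN i).1, (haN i).2.trans ?_⟩) ?_
    · have h1 : min 1 (S.inf' hne (fun t => dl t.1 t.2)) ≤ dl p q :=
        (min_le_right _ _).trans (Finset.inf'_le (fun t : ℕ × ℕ => dl t.1 t.2) (hmS p q hp hq))
      have h2 : (1 : ℝ) ≤ N := by exact_mod_cast hN2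
      have h3 := Real.rpow_le_rpow_of_exponent_le h2 h1
      linarith
    · refine bad_of_exc ξ d H A _ hH _ (hexc.mono hH le_rfl ?_)
      have h1 : C p q ≤ ∑ t ∈ S, C t.1 t.2 :=
        Finset.single_le_sum (f := fun t : ℕ × ℕ => C t.1 t.2) (fun t _ => (hC0 _ _).le)
          (hmS p q hp hq)
      linarith
  · refine ⟨∅, by simp, fun hp hq hH hξ hN hNH => ?_⟩
    exact absurd ⟨hp, hq, hH, hξ, hN, hNH⟩ hcond

end Pool.Agent.H72.CLU
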