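import Pool.Agent.H72.CLU.Heights

/-!
# Relations and all heights together (MP_3cf473_nt)
-/

set_option autoImplicit false

namespace Pool.Agent.H72.CLU

open Pool.Agent.H72.PSV.Rel (Exceptional bad_of_exc ncard_eq exc_up le_up log_four_gt scale_of
  NoRelation noRelation_of pigeon)

/-- all but few tuples of short intervals, no relations of degree at most `d` -/
theorem globalRel (r n w d : ℕ) (s δ C₀ : ℝ) (hT : T_S r n w d s δ C₀) (ξ : Fin r → ℂ) (x : ℕ)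
    (hx : 1 ≤ x) :
      (Set.ncard {M : Fin w → ℕ | (∀ i, 1 ≤ M i ∧ M i ≤ x) ∧ ∃ a : Fin n → ℕ,
        Function.Injective a ∧ (∀ i, ∃ j, inCl s (M j) (a i)) ∧
        ¬ NoRelation ξ d (fun i => ((Real.log (a i) : ℝ) : ℂ))} : ℝ) ≤
        C₀ * (x : ℝ) ^ ((w : ℝ) - δ) := by
  classical
  obtain ⟨C, hC, h2⟩ := hT 1 1
  set R : ℝ := max (max 2 x) (∑ i, ‖ξ i‖) with hR
  have hR2 : 2 ≤ R := (le_max_left _ _).trans (le_max_left _ _)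
  have hRx : (x : ℝ) ≤ R := (le_max_right _ _).trans (le_max_left _ _)
  have hRξ : ∀ i, ‖ξ i‖ ≤ R := fun i =>
    (Finset.single_le_sum (f := fun i => ‖ξ i‖) (fun _ _ => norm_nonneg _)
      (Finset.mem_univ i)).trans (le_max_right _ _)
  have hmax : max (1 : ℝ) 1 = 1 := max_self _
  rw [hmax] at h2
  set Ω : Finset (Fin w → ℕ) := Fintype.piFinset (fun _ : Fin w => Finset.Icc 1 x) with hΩ
  set p : ℕ → (Fin w → ℕ) → Prop := fun k a => ∃ H : ℝ, (R + k) ≤ H ∧ H ≤ (R + k) ^ (1 : ℝ) ∧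
    EC n s ξ d H 1 C a with hp
  have hcard : ∀ k, ((Ω.filter (p k)).card : ℝ) ≤ C₀ * (x : ℝ) ^ ((w : ℝ) - δ) := by
    intro k
    have hk : (0 : ℝ) ≤ k := Nat.cast_nonneg _
    have h3 := h2 x hx (R + k) (by linarith) (by rw [Real.rpow_one]; linarith) ξ
      (fun i => by rw [Real.rpow_one]; linarith [hRξ i])
    rw [ncard_eq x (p k)] at h3
    exact h3
  obtain ⟨S, hS⟩ := pigeon Ω (fun k => Ω.filter (p k)) (fun k => Finset.filter_subset _ _)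
  have hS1 : (S.card : ℝ) ≤ C₀ * (x : ℝ) ^ ((w : ℝ) - δ) := by
    obtain ⟨k, hk⟩ := hS.exists
    rw [← hk]
    exact hcard k
  refine le_trans ?_ hS1
  have hsub : {M : Fin w → ℕ | (∀ i, 1 ≤ M i ∧ M i ≤ x) ∧ ∃ a : Fin n → ℕ,
        Function.Injective a ∧ (∀ i, ∃ j, inCl s (M j) (a i)) ∧
        ¬ NoRelation ξ d (fun i => ((Real.log (a i) : ℝ) : ℂ))} ⊆ (S : Set (Fin w → ℕ)) := by
    rintro M ⟨hM, a, ha, hcl, hnot⟩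
    by_contra haS
    apply hnot
    refine noRelation_of ξ d C _ fun h₀ => ?_
    obtain ⟨k, hk, hk0⟩ := (hS.and_eventually (Filter.eventually_ge_atTop ⌈h₀⌉₊)).exists
    have hk1 : h₀ ≤ k := (Nat.le_ceil _).trans (by exact_mod_cast hk0)
    refine ⟨R + k, by linarith, fun hexc => ?_⟩
    apply haS
    rw [← hk]
    refine Finset.mem_coe.2 (Finset.mem_filter.2 ⟨?_, R + k, le_rfl, by rw [Real.rpow_one],
      a, ha, hcl, hexc⟩)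
    rw [hΩ, Fintype.mem_piFinset]
    exact fun i => Finset.mem_Icc.2 (hM i)
  have h4 := Set.ncard_le_ncard hsub (Finset.finite_toSet _)
  rw [Set.ncard_coe_finset] at h4
  exact_mod_cast h4

/-- Both parts for the same tuples. -/
theorem joined (r n w d : ℕ) : ∃ s : ℝ, 0 < s ∧
    ∀ A : ℝ, ∃ C : ℝ, 0 < C ∧ ∀ x : ℕ, 1 ≤ x → ∀ ξ : Fin r → ℂ,
    (Set.ncard {M : Fin w → ℕ | (∀ j, 1 ≤ M j ∧ M j ≤ x) ∧ ∃ a : Fin n → ℕ,
        Function.Injective a ∧ (∀ i, ∃ j, inCl s (M j) (a i)) ∧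
      (¬ NoRelation ξ d (fun i => ((Real.log (a i) : ℝ) : ℂ)) ∨
      ∃ H : ℝ, 2 ≤ H ∧ (∀ j, (M j : ℝ) ≤ H) ∧ (∃ j, Real.log (Real.log H) ≤ (M j : ℝ) ^ s) ∧
        (∀ i, ‖ξ i‖ ≤ H ^ A) ∧
        Exceptional ξ d H A C (fun i => ((Real.log (a i) : ℝ) : ℂ)))} : ℝ) ≤
      C * (x : ℝ) ^ ((w : ℝ) - s) := by
  classical
  obtain ⟨t, C₁, ht, ht1, hC₁, hT⟩ := single r n w d
  obtain ⟨δ, hδ, h2⟩ := absoluteR r n w d t t C₁ ht ht1 hC₁ hT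
  set s : ℝ := min t δ with hsdef
  have hs : 0 < s := lt_min ht hδ
  have hst : s ≤ t := min_le_left _ _
  have hsδ : s ≤ δ := min_le_right _ _
  refine ⟨s, hs, fun A => ?_⟩
  obtain ⟨C₂, hC₂, h3⟩ := h2 A
  refine ⟨C₁ + C₂, by positivity, fun x hx ξ => ?_⟩
  have hx1 : (1 : ℝ) ≤ x := by exact_mod_cast hx
  have hx0 : (0 : ℝ) < x := by linarith
  set S₁ : Set (Fin w → ℕ) := {M : Fin w → ℕ | (∀ i, 1 ≤ M i ∧ M i ≤ x) ∧ ∃ a : Fin n → ℕ,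
        Function.Injective a ∧ (∀ i, ∃ j, inCl t (M j) (a i)) ∧
        ¬ NoRelation ξ d (fun i => ((Real.log (a i) : ℝ) : ℂ))} with hS₁
  set S₂ : Set (Fin w → ℕ) := {a : Fin w → ℕ | (∀ i, 1 ≤ a i ∧ a i ≤ x) ∧
      ∃ H : ℝ, 2 ≤ H ∧ (∀ i, (a i : ℝ) ≤ H) ∧ (∃ i, Real.log (Real.log H) ≤ (a i : ℝ) ^ δ) ∧
        (∀ i, ‖ξ i‖ ≤ H ^ A) ∧ EC n t ξ d H A C₂ a} with hS₂
  have hfin : ∀ S : Set (Fin w → ℕ), (∀ a ∈ S, ∀ i, 1 ≤ a i ∧ a i ≤ x) → S.Finite := by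
    intro S hS
    refine Set.Finite.subset (Fintype.piFinset (fun _ : Fin w => Finset.Icc 1 x)).finite_toSet ?_
    intro a ha
    rw [Finset.mem_coe, Fintype.mem_piFinset]
    intro i
    exact Finset.mem_Icc.2 (hS a ha i)
  have hsub : {M : Fin w → ℕ | (∀ j, 1 ≤ M j ∧ M j ≤ x) ∧ ∃ a : Fin n → ℕ,
        Function.Injective a ∧ (∀ i, ∃ j, inCl s (M j) (a i)) ∧
      (¬ NoRelation ξ d (fun i => ((Real.log (a i) : ℝ) : ℂ)) ∨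
      ∃ H : ℝ, 2 ≤ H ∧ (∀ j, (M j : ℝ) ≤ H) ∧ (∃ j, Real.log (Real.log H) ≤ (M j : ℝ) ^ s) ∧
        (∀ i, ‖ξ i‖ ≤ H ^ A) ∧
        Exceptional ξ d H A (C₁ + C₂) (fun i => ((Real.log (a i) : ℝ) : ℂ)))} ⊆ S₁ ∪ S₂ := by
    rintro M ⟨hM, a, ha, hcl, hor | ⟨H, hH2, hMH, ⟨j, hj⟩, hξ, hexc⟩⟩
    · refine Or.inl ⟨hM, a, ha, fun i => ?_, hor⟩
      obtain ⟨j, hj⟩ := hcl i
      exact ⟨j, hj.mono hst (hM j).1⟩
    · refine Or.inr ⟨hM, H, hH2, hMH, ⟨j, hj.trans ?_⟩, hξ, a, ha, fun i => ?_,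
        hexc.mono hH2 le_rfl (by linarith)⟩
      · exact Real.rpow_le_rpow_of_exponent_le (by exact_mod_cast (hM j).1) hsδ
      · obtain ⟨j, hj⟩ := hcl i
        exact ⟨j, hj.mono hst (hM j).1⟩
  have hU : (S₁ ∪ S₂).Finite := (hfin S₁ fun a ha => ha.1).union (hfin S₂ fun a ha => ha.1)
  have h4 := (Set.ncard_le_ncard hsub hU).trans (Set.ncard_union_le S₁ S₂)
  have h4' : ((Set.ncard {M : Fin w → ℕ | (∀ j, 1 ≤ M j ∧ M j ≤ x) ∧ ∃ a : Fin n → ℕ,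
        Function.Injective a ∧ (∀ i, ∃ j, inCl s (M j) (a i)) ∧
      (¬ NoRelation ξ d (fun i => ((Real.log (a i) : ℝ) : ℂ)) ∨
      ∃ H : ℝ, 2 ≤ H ∧ (∀ j, (M j : ℝ) ≤ H) ∧ (∃ j, Real.log (Real.log H) ≤ (M j : ℝ) ^ s) ∧
        (∀ i, ‖ξ i‖ ≤ H ^ A) ∧
        Exceptional ξ d H A (C₁ + C₂) (fun i => ((Real.log (a i) : ℝ) : ℂ)))} : ℕ) : ℝ) ≤
      (S₁.ncard : ℝ) + (S₂.ncard : ℝ) := by exact_mod_cast h4
  have h5 : (S₁.ncard : ℝ) ≤ C₁ * (x : ℝ) ^ ((w : ℝ) - s) := by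
    refine (globalRel r n w d t t C₁ hT ξ x hx).trans (mul_le_mul_of_nonneg_left ?_ hC₁.le)
    exact Real.rpow_le_rpow_of_exponent_le hx1 (by linarith)
  have h6 : (S₂.ncard : ℝ) ≤ C₂ * (x : ℝ) ^ ((w : ℝ) - s) := by
    refine (h3 x hx ξ).trans (mul_le_mul_of_nonneg_left ?_ hC₂.le)
    exact Real.rpow_le_rpow_of_exponent_le hx1 (by linarith)
  calc _ ≤ (S₁.ncard : ℝ) + (S₂.ncard : ℝ) := h4'
    _ ≤ C₁ * (x : ℝ) ^ ((w : ℝ) - s) + C₂ * (x : ℝ) ^ ((w : ℝ) - s) := add_le_add h5 h6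
    _ = (C₁ + C₂) * (x : ℝ) ^ ((w : ℝ) - s) := by ring

end Pool.Agent.H72.CLU
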