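import Pool.Agent.H72.PSV.Rel2
import Pool.Agent.H72.PSV.All2

/-!
# Every short interval: all tuples of distinct integers off at most `r + 1` integers (MP_3cf473_nt)
-/

set_option autoImplicit false

namespace Pool.Agent.H72.CLU

open Pool.Agent.H72.PSV.Rel (Exceptional bad_of_exc exc_up le_up NoRelation noRelation_of pigeon)

/-- short intervals, one range of heights -/
theorem localSingle (r n d : ℕ) : ∃ (δ : ℝ) (N₁ : ℕ), 0 < δ ∧ 1 ≤ N₁ ∧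
    ∀ A B : ℝ, ∃ C : ℝ, 0 < C ∧ ∀ N : ℕ, N₁ ≤ N → ∀ (h : ℝ) (ξ : Fin r → ℂ), 2 ≤ h →
    (N : ℝ) ≤ h → (∀ i, ‖ξ i‖ ≤ h ^ B) →
    ∃ E : Finset ℕ, E.card ≤ r + 1 ∧ ∀ a : Fin n → ℕ, Function.Injective a →
      (∀ i, a i ∉ E ∧ N ≤ a i ∧ (a i : ℝ) ≤ N + (N : ℝ) ^ δ) →
      ∀ H : ℝ, h ≤ H → H ≤ h ^ B →
        ¬ Exceptional ξ d H A C (fun i => ((Real.log (a i) : ℝ) : ℂ)) := by
  obtain ⟨δ, N₁, hδ, h1⟩ := Pool.Agent.H72.PSV.lcnAll r n d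
  refine ⟨δ, max N₁ 1, hδ, le_max_right _ _, fun A B => ?_⟩
  obtain ⟨C, hC, h2⟩ := h1 (max A 0)
  refine ⟨C * max B 1, mul_pos hC (lt_max_of_lt_right one_pos), fun N hN h ξ hh hNh hξ => ?_⟩
  have hB : h ^ B ≤ h ^ (max B 1) :=
    Real.rpow_le_rpow_of_exponent_le (by linarith) (le_max_left _ _)
  obtain ⟨E, hE, h3⟩ := h2 (h ^ (max B 1)) (hh.trans (le_up _ B hh)) ξ
    (fun i => (hξ i).trans hB) N ((le_max_left _ _).trans hN) ((le_max_right _ _).trans hN)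
    (hNh.trans (le_up _ B hh))
  refine ⟨E, hE, fun a hainj ha H hH1 hH2 hexc => ?_⟩
  refine h3 a hainj (fun i => (ha i).1) (fun i => (ha i).2) ?_
  refine bad_of_exc _ _ _ _ _ (hh.trans (le_up _ B hh)) _ ?_
  exact exc_up ξ d h H A (max B 1) C hh hH1 (hH2.trans hB) (le_max_right _ _) hC.le _ hexc

/-- short intervals: no relations, and the inequality at every height -/
theorem localBoth (r n d : ℕ) : ∃ (s : ℝ) (N₁ : ℕ), 0 < s ∧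
    ∀ A : ℝ, ∃ C : ℝ, 0 < C ∧ ∀ N : ℕ, N₁ ≤ N → ∀ ξ : Fin r → ℂ,
    (∃ E : Finset ℕ, E.card ≤ r + 1 ∧ ∀ a : Fin n → ℕ, Function.Injective a →
      (∀ i, a i ∉ E ∧ N ≤ a i ∧ (a i : ℝ) ≤ N + (N : ℝ) ^ s) →
      NoRelation ξ d (fun i => ((Real.log (a i) : ℝ) : ℂ))) ∧
    ∀ h : ℝ, 2 ≤ h → (N : ℝ) ≤ h → (∀ i, ‖ξ i‖ ≤ h ^ A) →
    ∃ E : Finset ℕ, E.card ≤ r + 1 ∧ ∀ a : Fin n → ℕ, Function.Injective a →
      (∀ i, a i ∉ E ∧ N ≤ a i ∧ (a i : ℝ) ≤ N + (N : ℝ) ^ s) →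
      ∀ H : ℝ, h ≤ H → H ≤ h ^ A →
        ¬ Exceptional ξ d H A C (fun i => ((Real.log (a i) : ℝ) : ℂ)) := by
  classical
  obtain ⟨δ, N₁, hδ, hN₁, h1⟩ := localSingle r n d
  refine ⟨δ, N₁, hδ, fun A => ?_⟩
  obtain ⟨C', hC', h3⟩ := h1 A A
  refine ⟨C', hC', fun N hN ξ => ⟨?_, fun h hh hNh hξ => h3 N hN h ξ hh hNh hξ⟩⟩
  obtain ⟨C, hC, h2⟩ := h1 1 1
  set M : ℝ := max (max 2 N) (∑ i, ‖ξ i‖) with hM
  have hM2 : 2 ≤ M := (le_max_left _ _).trans (le_max_left _ _)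
  have hMN : (N : ℝ) ≤ M := (le_max_right _ _).trans (le_max_left _ _)
  have hMξ : ∀ i, ‖ξ i‖ ≤ M := fun i =>
    (Finset.single_le_sum (f := fun i => ‖ξ i‖) (fun _ _ => norm_nonneg _)
      (Finset.mem_univ i)).trans (le_max_right _ _)
  choose E hE hEa using fun k : ℕ => h2 N hN (M + k) ξ
    (by have : (0 : ℝ) ≤ k := Nat.cast_nonneg _
        linarith)
    (by have : (0 : ℝ) ≤ k := Nat.cast_nonneg _
        linarith)
    (fun i => by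
      have : (0 : ℝ) ≤ k := Nat.cast_nonneg _
      rw [Real.rpow_one]
      linarith [hMξ i])
  set I : Finset ℕ := Finset.Icc N ⌊(N : ℝ) + (N : ℝ) ^ δ⌋₊ with hI
  obtain ⟨E₀, hE₀⟩ := pigeon I (fun k => (E k).filter (· ∈ I)) (fun k b hb =>
    (Finset.mem_filter.1 hb).2)
  refine ⟨E₀, ?_, ?_⟩
  · obtain ⟨k, hk⟩ := hE₀.exists
    rw [← hk]
    exact (Finset.card_filter_le _ _).trans (hE k)
  · intro a hainj ha
    refine noRelation_of ξ d C _ fun h₀ => ?_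
    obtain ⟨k, hk, hk0⟩ := (hE₀.and_eventually (Filter.eventually_ge_atTop ⌈h₀⌉₊)).exists
    have hk1 : h₀ ≤ k := (Nat.le_ceil _).trans (by exact_mod_cast hk0)
    refine ⟨M + k, by linarith, ?_⟩
    refine hEa k a hainj (fun i => ⟨?_, (ha i).2⟩) (M + k) le_rfl (by rw [Real.rpow_one])
    intro hi
    apply (ha i).1
    rw [← hk]
    refine Finset.mem_filter.2 ⟨hi, ?_⟩
    rw [hI, Finset.mem_Icc]
    exact ⟨(ha i).2.1, Nat.le_floor (ha i).2.2⟩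

end Pool.Agent.H72.CLU
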