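import Pool.Agent.H72.PSV.Rel

/-!
# Splitting a tuple into two blocks (MP_3cf473_nt)
-/

set_option autoImplicit false

namespace Pool.Agent.H72.CLU

open MvPolynomial

/-- the exceptional property for general index types -/
def Exc {σ τ : Type} (ξ : σ → ℂ) (d : ℕ) (H A B : ℝ) (y : τ → ℂ) : Prop :=
  ∃ P : MvPolynomial (σ ⊕ τ) ℤ, P.totalDegree ≤ d ∧
    (∀ e : σ ⊕ τ →₀ ℕ, |((coeff e P : ℤ) : ℝ)| ≤ H) ∧
    ‖aeval (Sum.elim ξ y) P‖ < H ^ (-B) ∧
    ∃ e : τ →₀ ℕ, H ^ (-A) ≤ ‖coeff e (aeval (Sum.elim (fun i => C (ξ i)) X :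
      σ ⊕ τ → MvPolynomial τ ℂ) P)‖

theorem Exc.reindex {σ τ σ' τ' : Type} (e : σ ≃ σ') (f : τ ≃ τ') {ξ : σ' → ℂ} {d : ℕ}
    {H A B : ℝ} {y : τ' → ℂ} (h : Exc ξ d H A B y) : Exc (ξ ∘ e) d H A B (y ∘ f) := by
  obtain ⟨P, h1, h2, h3, m, h4⟩ := h
  let g : σ' ⊕ τ' ≃ σ ⊕ τ := Equiv.sumCongr e.symm f.symm
  refine ⟨rename g P, (totalDegree_rename_le _ _).trans h1, ?_, ?_, m.mapDomain f.symm, ?_⟩
  · intro k
    have h5 : k = (k.mapDomain g.symm).mapDomain g := by
      rw [← Finsupp.mapDomain_comp]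
      simp
    rw [h5, coeff_rename_mapDomain _ g.injective]
    exact h2 _
  · rw [aeval_rename]
    have : (Sum.elim (ξ ∘ e) (y ∘ f)) ∘ g = Sum.elim ξ y := by
      funext i
      cases i with
      | inl i => simp [g]
      | inr i => simp [g]
    rw [this]
    exact h3
  · have h6 : aeval (Sum.elim (fun i => C ((ξ ∘ e) i)) X : σ ⊕ τ → MvPolynomial τ ℂ)
        (rename g P) = rename f.symm (aeval (Sum.elim (fun i => C (ξ i)) X :
          σ' ⊕ τ' → MvPolynomial τ' ℂ) P) := by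
      clear h1 h2 h3 h4
      induction P using MvPolynomial.induction_on with
      | C a => simp
      | add p q hp hq => rw [map_add, map_add, map_add, map_add, hp, hq]
      | mul_X p i hp =>
        rw [map_mul, map_mul, map_mul, map_mul, hp]
        congr 1
        cases i with
        | inl i => simp [g]
        | inr i => simp [g]
    rw [h6, coeff_rename_mapDomain _ f.symm.injective]
    exact h4

theorem coeff_sumAlgEquiv' {R S₁ S₂ : Type} [CommRing R] (P : MvPolynomial (S₁ ⊕ S₂) R)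
    (m₁ : S₁ →₀ ℕ) (m₂ : S₂ →₀ ℕ) :
    coeff m₂ (coeff m₁ (sumAlgEquiv R S₁ S₂ P)) = coeff (m₁.sumElim m₂) P := by
  classical
  induction P using MvPolynomial.induction_on' with
  | add p q hp hq => rw [map_add, coeff_add, coeff_add, hp, hq, coeff_add]
  | monomial u a =>
    have h : sumAlgEquiv R S₁ S₂ (monomial u a) =
      monomial (Finsupp.sumFinsuppAddEquivProdFinsupp u).1
        (monomial (Finsupp.sumFinsuppAddEquivProdFinsupp u).2 a) := by
      simp [sumAlgEquiv, monomial]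
    rw [h, coeff_monomial]
    by_cases h1 : (Finsupp.sumFinsuppAddEquivProdFinsupp u).1 = m₁
    · rw [if_pos h1, coeff_monomial, coeff_monomial]
      by_cases h2 : (Finsupp.sumFinsuppAddEquivProdFinsupp u).2 = m₂
      · rw [if_pos h2, if_pos]
        subst h1 h2
        ext i
        cases i <;> simp
      · rw [if_neg h2, if_neg]
        intro h3
        apply h2
        rw [h3]
        ext i
        simp
    · rw [if_neg h1, coeff_zero, coeff_monomial, if_neg]
      intro h3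
      apply h1
      rw [h3]
      ext i
      simp

theorem degree_sumElim {S₁ S₂ : Type} (m₁ : S₁ →₀ ℕ) (m₂ : S₂ →₀ ℕ) :
    m₂.degree ≤ (m₁.sumElim m₂).degree := by
  classical
  have h : m₁.sumElim m₂ = m₁.mapDomain Sum.inl + m₂.mapDomain Sum.inr := by
    ext i
    cases i with
    | inl i =>
      rw [Finsupp.add_apply, Finsupp.mapDomain_apply Sum.inl_injective,
        Finsupp.mapDomain_of_notMem_range _ _ (by simp)]
      simp
    | inr i =>
      rw [Finsupp.add_apply, Finsupp.mapDomain_apply Sum.inr_injective,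
        Finsupp.mapDomain_of_notMem_range _ _ (by simp)]
      simp
  have h2 : (m₂.mapDomain (Sum.inr : S₂ → S₁ ⊕ S₂)).degree = m₂.degree :=
    Finsupp.degree_mapDomain _ _
  rw [h, map_add, h2]
  exact Nat.le_add_left _ _

/-- the splitting lemma -/
theorem Exc.split {σ τ₁ τ₂ : Type} {ξ : σ → ℂ} {d : ℕ} {H A B B₁ : ℝ} {u : τ₁ → ℂ} {v : τ₂ → ℂ}
    (h : Exc ξ d H A B (Sum.elim u v)) (hu : ¬ Exc ξ d H A B₁ u) :
    Exc (Sum.elim ξ u) d H B₁ B v := by
  obtain ⟨P, h1, h2, h3, m, h4⟩ := h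
  let g : σ ⊕ (τ₁ ⊕ τ₂) ≃ (σ ⊕ τ₁) ⊕ τ₂ := (Equiv.sumAssoc _ _ _).symm
  let k : σ ⊕ (τ₁ ⊕ τ₂) ≃ τ₂ ⊕ (σ ⊕ τ₁) := g.trans (Equiv.sumComm _ _)
  set Φ : MvPolynomial τ₂ (MvPolynomial (σ ⊕ τ₁) ℤ) := sumAlgEquiv ℤ τ₂ (σ ⊕ τ₁) (rename k P)
    with hΦ
  -- the block of variables `v`
  set m₂ : τ₂ →₀ ℕ := (Finsupp.sumFinsuppAddEquivProdFinsupp m).2 with hm₂
  set m₁ : τ₁ →₀ ℕ := (Finsupp.sumFinsuppAddEquivProdFinsupp m).1 with hm₁
  set Q : MvPolynomial (σ ⊕ τ₁) ℤ := coeff m₂ Φ with hQ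
  have hcoeff : ∀ e, coeff e Q = coeff ((m₂.sumElim e).mapDomain k.symm) P := by
    intro e
    rw [hQ, hΦ, coeff_sumAlgEquiv']
    have h5 : m₂.sumElim e = ((m₂.sumElim e).mapDomain k.symm).mapDomain k := by
      rw [← Finsupp.mapDomain_comp]
      simp
    conv_lhs => rw [h5]
    rw [coeff_rename_mapDomain _ k.injective]
  have hQd : Q.totalDegree ≤ d := by
    rw [totalDegree]
    refine Finset.sup_le fun e he => ?_
    show Finsupp.degree e ≤ d
    rw [mem_support_iff, hcoeff] at he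
    have h5 := le_totalDegree (mem_support_iff.2 he)
    have h6 : (Finsupp.degree (Finsupp.mapDomain k.symm (m₂.sumElim e))) ≤ d := by
      refine le_trans ?_ h1
      exact h5
    rw [Finsupp.degree_mapDomain] at h6
    exact (degree_sumElim m₂ e).trans h6
  have key1 : aeval (Sum.elim (fun i => C (Sum.elim ξ u i)) X :
      (σ ⊕ τ₁) ⊕ τ₂ → MvPolynomial τ₂ ℂ) (rename g P) =
      map (aeval (Sum.elim ξ u) : MvPolynomial (σ ⊕ τ₁) ℤ →ₐ[ℤ] ℂ).toRingHom Φ := by
    rw [hΦ]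
    clear_value Φ
    clear h1 h2 h3 h4 hQd hcoeff hΦ hQ
    induction P using MvPolynomial.induction_on with
    | C a => simp [g, k]
    | add p q hp hq => simp only [map_add, hp, hq]
    | mul_X p i hp =>
      simp only [map_mul, hp]
      congr 1
      rcases i with i | i | i <;> simp [g, k]
  have key2 : sumAlgEquiv ℂ τ₂ τ₁ (rename (Equiv.sumComm τ₁ τ₂)
      (aeval (Sum.elim (fun i => C (ξ i)) X :
        σ ⊕ (τ₁ ⊕ τ₂) → MvPolynomial (τ₁ ⊕ τ₂) ℂ) P)) =
      map (aeval (Sum.elim (fun i => C (ξ i)) X : σ ⊕ τ₁ → MvPolynomial τ₁ ℂ) :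
        MvPolynomial (σ ⊕ τ₁) ℤ →ₐ[ℤ] MvPolynomial τ₁ ℂ).toRingHom Φ := by
    rw [hΦ]
    clear_value Φ
    clear h1 h2 h3 h4 hQd hcoeff hΦ hQ key1
    induction P using MvPolynomial.induction_on with
    | C a => simp [g, k]
    | add p q hp hq => simp only [map_add, hp, hq]
    | mul_X p i hp =>
      simp only [map_mul, hp]
      congr 1
      rcases i with i | i | i <;> simp [g, k]
  have key3 : coeff m (aeval (Sum.elim (fun i => C (ξ i)) X :
        σ ⊕ (τ₁ ⊕ τ₂) → MvPolynomial (τ₁ ⊕ τ₂) ℂ) P) =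
      coeff m₁ (aeval (Sum.elim (fun i => C (ξ i)) X : σ ⊕ τ₁ → MvPolynomial τ₁ ℂ) Q) := by
    have h5 := congrArg (fun F => coeff m₁ (coeff m₂ F)) key2
    simp only [coeff_map] at h5
    rw [coeff_sumAlgEquiv'] at h5
    have h6 : m₂.sumElim m₁ = m.mapDomain (Equiv.sumComm τ₁ τ₂) := by
      ext i
      cases i with
      | inl i =>
        have : (Sum.inl i : τ₂ ⊕ τ₁) = Equiv.sumComm τ₁ τ₂ (Sum.inr i) := rfl
        rw [this, Finsupp.mapDomain_apply (Equiv.injective _)]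
        simp [hm₂]
      | inr i =>
        have : (Sum.inr i : τ₂ ⊕ τ₁) = Equiv.sumComm τ₁ τ₂ (Sum.inl i) := rfl
        rw [this, Finsupp.mapDomain_apply (Equiv.injective _)]
        simp [hm₁]
    rw [h6, coeff_rename_mapDomain _ (Equiv.injective _)] at h5
    exact h5
  have hlow : H ^ (-B₁) ≤ ‖aeval (Sum.elim ξ u) Q‖ := by
    by_contra hlt
    push Not at hlt
    apply hu
    refine ⟨Q, hQd, fun e => ?_, hlt, m₁, ?_⟩
    · rw [hcoeff]
      exact h2 _
    · rw [← key3]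
      exact h4
  refine ⟨rename g P, (totalDegree_rename_le _ _).trans h1, ?_, ?_, m₂, ?_⟩
  · intro e
    have h5 : e = (e.mapDomain g.symm).mapDomain g := by
      rw [← Finsupp.mapDomain_comp]
      simp
    rw [h5, coeff_rename_mapDomain _ g.injective]
    exact h2 _
  · rw [aeval_rename]
    have : (Sum.elim (Sum.elim ξ u) v) ∘ g = Sum.elim ξ (Sum.elim u v) := by
      funext i
      rcases i with i | i | i <;> simp [g]
    rw [this]
    exact h3
  · rw [key1, coeff_map]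
    exact hlow

end Pool.Agent.H72.CLU
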